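import Pool.Agent.H670R4.Main
import Pool.Agent.H670R4.Asm2

/-!
# The ply number of a graph is complete for the existential theory of the reals

The definitions are in `Pool.Agent.H670R4.Prob` (radii, depth, ply, ply number, the decision problem
`PLY`), `Pool.Agent.H670R2.OrthDefs` (graphs given by adjacency lists) and `Pool.Agent.ER.Defs` (the
existential theory of the reals and the class `∃ℝ`).

Sketch of the hardness proof, for `k = 1`.

* The ply number of a connected graph is at most one iff it has a *penny realization*: all edges
  have length one and all distances of different vertices are at least one (`T_FWD`, `T_BWD`).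
* *Patches* (`T_PAT`, `T_WALL`).  A grid of unit rhombi has seven rows per level.  In a level the
  interior of five columns is replaced by a rigid piece of the triangular lattice, a sheared strip:
  its border goes from `0` to `7 ρ u`, where `u` is the direction of its base and
  `ρ = (8 ω - 5) / 7`, `ω = exp (π i / 3)`, `|ρ| = 1`; so seven unit vectors along the wall of the
  patch must all be equal to `ρ u`, if the ends of the walls agree (`T_WR1`, `T_WR2`).
* So the vertical direction of each level is `ρ` times the horizontal direction of a prescribed
  block of columns, a *wire* (a unit complex number), and the orientations of all cells agree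
  (`T_LOC`, `T_LOR1`–`T_LOR3`, `T_SG1`–`T_SG3`, `T_ROW`).
* *Holes* (`T_HOL`, `T_SND`).  In the middle block there are holes; on the left and on the right
  side of a hole different wires are used.  The hole closes again, so a sum of differences of wires
  vanishes: arbitrary linear relations with small integral coefficients.  Narrow holes (only edges
  are removed), with a pendant vertex inside, give inequalities (`T_PEND`).
* *Arithmetic* (`T_AS1`–`T_AS5`, `T_AC1`, `T_AC2`).  Two narrow holes force `x s = p²` for wires
  (`2 (p - q) = s - r` and `2 (x - r) = p - y` with `p ≠ q`, `x ≠ r`), so products of unit complex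
  numbers, and real parts of wires can be added and multiplied; solvability of systems of
  polynomial equations with a small solution (`Pool.Agent.ER.Bounded`) is reduced to the
  realizability of the graph.
* *Realizations* (`T_CONE`, `T_UV`, `T_CEDG`, `T_SEP`, `T_CGG`, …, `T_REV`, `T_NUM`).  Conversely a
  small solution gives wires in a narrow cone, and then all distances are at least one.
* The map is computable in polynomial time (`T_P1`, `T_P2`).

Membership in `∃ℝ` (`T_DISK`, `T_MEM1`–`T_MEM4`): if some point is in more than `k` disks, then so
is a center or the midpoint of two intersection points of the circles.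
-/

namespace Pool.Agent.Results.MP_ccde9d_lc.PlyNumberComplete

open Pool.Agent.NPC Pool.Agent.NPC.ER Pool.Agent.H670R2 Pool.Agent.H670R4

/-- The decision problem PLY (is the ply number of a given graph at most a given number `k`?) is
`∃ℝ`-complete; moreover, already for `k = 1` every problem of `∃ℝ` reduces to it in polynomial
time. -/
theorem result :
    ERComplete PLY ∧
    ∀ L, InER L → ∃ f : List Bool → List (List ℕ), PolyTime (fun w => bits (f w)) ∧
      ∀ w, ∃ h : IsGraph (f w), (w ∈ L ↔ plyNumber (graphOf (f w) h) ≤ 1) :=
  ⟨Pool.Agent.NPC.H670R2.ply_complete all_steps, Pool.Agent.NPC.H670R2.ply_hard1 all_steps⟩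

end Pool.Agent.Results.MP_ccde9d_lc.PlyNumberComplete
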